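import Pool.Agent.WR3.StmtsA

/-!
WR3, row CNS: split of the counts at the last position.
-/

namespace Pool.Agent.WR3.H21

open Pool.Agent.WIR Pool.Agent.WR2 Pool.Agent.WR3
open scoped BigOperators

/-- the power of 3 vanishes. -/
theorem pow3_zero (m k : ℕ) (h : m ≤ k) : (3 : ZMod (3 ^ m)) ^ k = 0 := by
  obtain ⟨d, rfl⟩ := Nat.exists_eq_add_of_le h
  have h1 : ((3 ^ m : ℕ) : ZMod (3 ^ m)) = 0 := ZMod.natCast_self (3 ^ m)
  have h2 : (3 : ZMod (3 ^ m)) ^ m = 0 := by
    rw [← h1]
    push_cast
    rfl
  rw [pow_add, h2, zero_mul]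

/-- rank of a small element does not change. -/
theorem rk_small (t : ℕ) (O : Finset ℕ) (p : ℕ) (hp : p ≤ t) :
    rk (insert (t + 1) O) p = rk O p := by
  unfold rk
  rw [Finset.filter_insert, if_neg (by omega)]

/-- rank of the last element. -/
theorem rk_last (t : ℕ) (O : Finset ℕ) (hO : O ⊆ Finset.Icc 1 t) :
    rk (insert (t + 1) O) (t + 1) = O.card := by
  unfold rk
  rw [Finset.filter_insert, if_neg (by omega)]
  rw [Finset.filter_true_of_mem]
  intro q hq
  have := Finset.mem_Icc.mp (hO hq)
  omega

/-- the value does not change. -/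
theorem FO_insert (t m : ℕ) (O : Finset ℕ) (hO : O ⊆ Finset.Icc 1 t) (hm : m ≤ O.card) :
    FO m (insert (t + 1) O) = FO m O := by
  have hn : t + 1 ∉ O := by
    intro h
    have := Finset.mem_Icc.mp (hO h)
    omega
  unfold FO
  rw [Finset.sum_insert hn, rk_last t O hO, pow3_zero m _ hm, zero_mul, zero_add]
  apply Finset.sum_congr rfl
  intro p hp
  have := Finset.mem_Icc.mp (hO hp)
  rw [rk_small t O p this.2]

/-- card of a filtered disjoint union. -/
theorem card_split {p : Finset ℕ → Prop} {dp : DecidablePred p} (A B : Finset (Finset ℕ))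
    (h : Disjoint A B) : ((A ∪ B).filter p).card = (A.filter p).card + (B.filter p).card := by
  rw [Finset.filter_union, Finset.card_union_of_disjoint (Finset.disjoint_filter_filter h)]

/-- the part with `t+1` in the word. -/
theorem card_img {p q : Finset ℕ → Prop} {dp : DecidablePred p} {dq : DecidablePred q}
    (t : ℕ)
    (h : ∀ O : Finset ℕ, O ⊆ Finset.Icc 1 t → (p (insert (t + 1) O) ↔ q O)) :
    (((Finset.Icc 1 t).powerset.image (insert (t + 1))).filter p).card =
      ((Finset.Icc 1 t).powerset.filter q).card := by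
  rw [Finset.filter_image, Finset.card_image_of_injOn]
  · rw [Finset.filter_congr (q := q)]
    intro O hO
    exact h O (Finset.mem_powerset.mp hO)
  · intro A hA B hB hAB
    have hA1 := Finset.mem_powerset.mp (Finset.mem_filter.mp (Finset.mem_coe.mp hA)).1
    have hB1 := Finset.mem_powerset.mp (Finset.mem_filter.mp (Finset.mem_coe.mp hB)).1
    have hnA : t + 1 ∉ A := by
      intro h
      have := Finset.mem_Icc.mp (hA1 h)
      omega
    have hnB : t + 1 ∉ B := by
      intro h
      have := Finset.mem_Icc.mp (hB1 h)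
      omega
    have h1 := congrArg (fun C : Finset ℕ => C.erase (t + 1)) hAB
    simp only [Finset.erase_insert hnA, Finset.erase_insert hnB] at h1
    exact h1

/-- **Row CNS**. -/
theorem cns : CnsStmt := by
  intro t m l z hl
  unfold cnt
  have hI : Finset.Icc 1 (t + 1) = insert (t + 1) (Finset.Icc 1 t) := by
    ext q
    simp only [Finset.mem_Icc, Finset.mem_insert]
    omega
  have hd : Disjoint (Finset.Icc 1 t).powerset
      ((Finset.Icc 1 t).powerset.image (insert (t + 1))) := by
    rw [Finset.disjoint_left]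
    intro O h1 h2
    have h1' := Finset.mem_powerset.mp h1
    obtain ⟨A, hA, rfl⟩ := Finset.mem_image.mp h2
    have := Finset.mem_Icc.mp (h1' (Finset.mem_insert_self (t + 1) A))
    omega
  rw [hI, Finset.powerset_insert, card_split _ _ hd]
  congr 1
  apply card_img
  intro O hO'
  have hn : t + 1 ∉ O := by
    intro h
    have := Finset.mem_Icc.mp (hO' h)
    omega
  have hc : (insert (t + 1) O).card = O.card + 1 := Finset.card_insert_of_notMem hn
  simp only [Set.mem_singleton_iff]
  constructor
  · rintro ⟨h1, h2⟩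
    have h3 : O.card = l - 1 := by omega
    refine ⟨h3, ?_⟩
    rw [← h2, FO_insert t m O hO' (by omega)]
  · rintro ⟨h1, h2⟩
    refine ⟨by omega, ?_⟩
    rw [FO_insert t m O hO' (by omega), h2]

end Pool.Agent.WR3.H21
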